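import Pool.Agent.Helper51.PS.Cl
import Mathlib.NumberTheory.EulerProduct.Basic

/-!
Sums of `1 / √s` over the numbers `s` composed of primes `≤ K` (Euler product).
-/

set_option autoImplicit false

namespace Pool.Agent.Helper37.PTE

open Finset
open Pool.Agent.Helper51.PS (Sm)

/-- `n ↦ 1 / √n` -/
noncomputable def sqHom : ℕ →* ℝ where
  toFun n := (Real.sqrt (n : ℝ))⁻¹
  map_one' := by simp
  map_mul' m n := by
    push_cast
    rw [Real.sqrt_mul (Nat.cast_nonneg m), mul_inv]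

theorem sqrt_bound (K : ℕ) : ∃ C : ℝ, 0 < C ∧ ∀ S : Finset ℕ, (∀ n ∈ S, 0 < n ∧ Sm K n) →
    ∑ n ∈ S, (Real.sqrt (n : ℝ))⁻¹ ≤ C := by
  have h := (EulerProduct.summable_and_hasSum_smoothNumbers_prod_primesBelow_geometric
    (f := sqHom) (by
      intro p hp
      show ‖(Real.sqrt (p : ℝ))⁻¹‖ < 1
      rw [norm_inv, Real.norm_of_nonneg (Real.sqrt_nonneg _)]
      apply inv_lt_one_of_one_lt₀
      rw [Real.lt_sqrt (by norm_num)]
      have : (1 : ℝ) < p := by exact_mod_cast hp.one_lt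
      linarith) (K + 1)).2
  have hnn : ∀ m : (K + 1).smoothNumbers, 0 ≤ sqHom (m : ℕ) := fun m => by
      show 0 ≤ (Real.sqrt ((m : ℕ) : ℝ))⁻¹
      positivity
  refine ⟨_ + 1, add_pos_of_nonneg_of_pos (h.nonneg hnn) one_pos, fun S hS => ?_⟩
  have hmem : ∀ n ∈ S, n ∈ (K + 1).smoothNumbers := by
    intro n hn
    rw [Nat.smoothNumbers, Set.mem_setOf_eq]
    refine ⟨(hS n hn).1.ne', fun p hp => ?_⟩
    have h1 := (Nat.mem_primeFactorsList (hS n hn).1.ne').1 hp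
    have := (hS n hn).2 p h1.1 h1.2
    omega
  have h2 := sum_le_hasSum (S.subtype (· ∈ (K + 1).smoothNumbers)) (fun m _ => hnn m) h
  rw [Finset.sum_subtype_of_mem (fun n => sqHom n) hmem] at h2
  have h3 : ∑ n ∈ S, (Real.sqrt (n : ℝ))⁻¹ = ∑ n ∈ S, sqHom n :=
    Finset.sum_congr rfl fun n _ => rfl
  rw [h3]
  linarith

end Pool.Agent.Helper37.PTE
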