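import Pool.Agent.Helper37.PSE.Total

/-!
The block part of E2 of the project PT: a weight `w p` instead of `1 / f p`, exponent `κ`.
-/

set_option autoImplicit false

namespace Pool.Agent.Helper37.PTE

open Finset
open Pool.Agent.Helper37.PSE (zz zz_lower tiny sum_biUnion_le_rc mertens_block)

/-- the sum over the blocks -/
theorem sum_blocks (D ε : ℝ) (hD : 0 < D) (hε : 0 < ε) (hε2 : ε ≤ 1 / 2) : ∃ C : ℝ, 0 < C ∧
    ∀ x : ℕ, 16 ≤ x → ∃ L : ℕ, 3 ≤ L ∧ x ≤ 2 ^ (2 ^ (2 ^ (L - 2))) ∧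
      ∑ l ∈ Finset.Icc 0 L, D * (2 : ℝ) ^ ((1 - ε) * l) ≤
        C * (Real.log (Real.log x)) ^ (1 - ε) := by
  classical
  set r : ℝ := (2 : ℝ) ^ (1 - ε) with hr
  have hr1 : (4 / 3 : ℝ) ≤ r := by
    have h1 : (2 : ℝ) ^ (1 / 2 : ℝ) ≤ r := Real.rpow_le_rpow_of_exponent_le (by norm_num) (by linarith)
    have h2 : (4 / 3 : ℝ) ≤ (2 : ℝ) ^ (1 / 2 : ℝ) := by
      rw [← Real.sqrt_eq_rpow]
      exact Real.le_sqrt_of_sq_le (by norm_num)
    linarith
  have hgeo : ∀ L : ℕ, ∑ l ∈ Finset.Icc 0 L, r ^ l ≤ 4 * r ^ L := by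
    intro L
    induction L with
    | zero => simp
    | succ L ih =>
      rw [← Finset.insert_Icc_right_eq_Icc_add_one (by omega), Finset.sum_insert (by simp)]
      have h5 : r ^ (L + 1) = r ^ L * r := pow_succ _ _
      have h6 : 0 < r ^ L := by positivity
      rw [h5]
      nlinarith
  have hpow : ∀ l : ℕ, (2 : ℝ) ^ ((1 - ε) * l) = r ^ l := by
    intro l
    rw [hr, Real.rpow_mul (by norm_num), Real.rpow_natCast]
  refine ⟨4 * D * (25 : ℝ) ^ (1 - ε), by positivity, ?_⟩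
  intro x hx
  have hex : ∃ L : ℕ, x ≤ 2 ^ (2 ^ (2 ^ (L - 2))) := by
    refine ⟨x + 2, ?_⟩
    rw [Nat.add_sub_cancel]
    have h1 : x < 2 ^ x := Nat.lt_two_pow_self
    have h2 : 2 ^ x < 2 ^ (2 ^ x) := Nat.lt_two_pow_self
    have h3 : 2 ^ (2 ^ x) < 2 ^ (2 ^ (2 ^ x)) := Nat.lt_two_pow_self
    omega
  set L := Nat.find hex with hL
  have hLx : x ≤ 2 ^ (2 ^ (2 ^ (L - 2))) := Nat.find_spec hex
  have hL3 : 3 ≤ L := by
    by_contra hcon
    have h1 : L - 2 = 0 := by omega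
    rw [h1] at hLx
    norm_num at hLx
    omega
  have hmin : 2 ^ (2 ^ (2 ^ (L - 3))) < x := by
    have h1 := Nat.find_min hex (m := L - 1) (by omega)
    rw [not_le] at h1
    have h2 : L - 1 - 2 = L - 3 := by omega
    rwa [h2] at h1
  refine ⟨L, hL3, hLx, ?_⟩
  -- the logarithms
  obtain ⟨j, hj⟩ : ∃ j, L = j + 3 := ⟨L - 3, by omega⟩
  have hj3 : L - 3 = j := by omega
  rw [hj3] at hmin
  have hlog2 : (0.6931 : ℝ) < Real.log 2 := by
    have := Real.log_two_gt_d9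
    linarith
  have h1 : (2 : ℝ) ^ (2 ^ j) * Real.log 2 ≤ Real.log x := by
    have h2 : ((2 : ℝ) ^ (2 ^ (2 ^ j))) ≤ x := by exact_mod_cast hmin.le
    have h3 := Real.log_le_log (by positivity) h2
    rw [Real.log_pow] at h3
    push_cast at h3
    exact h3
  have h2 : (2 : ℝ) ^ j * Real.log 2 + Real.log (Real.log 2) ≤ Real.log (Real.log x) := by
    have h3 := Real.log_le_log (by positivity) h1
    rw [Real.log_mul (by positivity) (by positivity), Real.log_pow] at h3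
    push_cast at h3
    exact h3
  have h3 : -(0.367 : ℝ) ≤ Real.log (Real.log 2) := by
    rw [Real.le_log_iff_exp_le (by positivity)]
    have h4 : Real.exp (-0.367) ≤ 0.693 := by
      have h5 : Real.exp (-0.367) = 1 / Real.exp 0.367 := by
        rw [Real.exp_neg, one_div]
      rw [h5]
      have h6 : (1 : ℝ) / 0.693 ≤ Real.exp 0.367 := by
        have h7 := Real.sum_le_exp_of_nonneg (x := 0.367) (by norm_num) 5
        refine le_trans ?_ h7
        norm_num [Finset.sum_range_succ, Nat.factorial]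
      calc 1 / Real.exp 0.367 ≤ 1 / (1 / 0.693) := one_div_le_one_div_of_le (by norm_num) h6
        _ = 0.693 := by norm_num
    linarith
  have h4 : (2 : ℝ) ^ L ≤ 25 * Real.log (Real.log x) := by
    have h5 : (2 : ℝ) ^ L = 8 * 2 ^ j := by
      rw [hj, pow_add]
      ring
    have h6 : (1 : ℝ) ≤ 2 ^ j := one_le_pow₀ (by norm_num)
    rw [h5]
    nlinarith
  have hll : 0 ≤ Real.log (Real.log x) := by
    have : (0 : ℝ) < 2 ^ L := by positivity
    linarith
  calc ∑ l ∈ Finset.Icc 0 L, D * (2 : ℝ) ^ ((1 - ε) * l)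
      = D * ∑ l ∈ Finset.Icc 0 L, r ^ l := by
        rw [Finset.mul_sum]
        exact Finset.sum_congr rfl fun l _ => by rw [hpow]
    _ ≤ D * (4 * r ^ L) := mul_le_mul_of_nonneg_left (hgeo L) hD.le
    _ = 4 * D * ((2 : ℝ) ^ L) ^ (1 - ε) := by
        rw [hr, ← Real.rpow_natCast, ← Real.rpow_natCast, ← Real.rpow_mul (by norm_num),
          ← Real.rpow_mul (by norm_num), mul_comm (1 - ε)]
        ring
    _ ≤ 4 * D * (25 * Real.log (Real.log x)) ^ (1 - ε) :=
        mul_le_mul_of_nonneg_left (Real.rpow_le_rpow (by positivity) h4 (by linarith))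
          (by positivity)
    _ = 4 * D * (25 : ℝ) ^ (1 - ε) * (Real.log (Real.log x)) ^ (1 - ε) := by
        rw [Real.mul_rpow (by norm_num) hll]
        ring

open Classical in
theorem block_total (P : Set ℕ) (w : ℕ → ℝ) (good : ℕ → ℕ → Prop) (D₀ ε : ℝ) (L0 : ℕ)
    (hD₀ : 0 ≤ D₀) (hε : 0 < ε) (hε2 : ε ≤ 1 / 2)
    (hP : ∀ p ∈ P, p.Prime) (hw0 : ∀ p, 0 ≤ w p) (hw1 : ∀ p ∈ P, w p ≤ 1)
    (hbad : ∀ l : ℕ, ∀ p ∈ P, ¬ good l p → w p ≤ D₀ * (2 : ℝ) ^ (-(ε * l)))
    (hfew : ∀ l ≥ L0, ∀ Q : Finset ℕ, (∀ p ∈ Q, p ∈ P ∧ 2 ^ (2 ^ (l - 2)) < p ∧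
      p ≤ 2 ^ (2 ^ (2 ^ (l - 2))) ∧ good l p) →
      Q.card ≤ 2 ^ l * (2 * 2 ^ (2 ^ (l - 2)))) :
    ∃ C : ℝ, 0 < C ∧ ∀ x : ℕ, 16 ≤ x →
      ∑ p ∈ (Icc 1 x).filter (fun p => p ∈ P), w p * (1 / (p : ℝ)) ≤
        C * (Real.log (Real.log x)) ^ (1 - ε) := by
  obtain ⟨M, hM0, hM⟩ := mertens_block
  set W : ℕ := max L0 6 with hW
  set D : ℝ := 2 + D₀ * M + M * 2 ^ W with hD
  have hD0 : 0 < D := by positivity
  obtain ⟨C, hC0, hC⟩ := sum_blocks D ε hD0 hε hε2
  refine ⟨C, hC0, ?_⟩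
  intro x hx
  obtain ⟨L, hL3, hxL, hsum⟩ := hC x hx
  refine le_trans ?_ hsum
  -- the blocks
  set Bl : ℕ → Finset ℕ := fun l => (Icc 1 (zz l)).filter (fun p => p ∈ P ∧ (l = 2 ∨ zz (l - 1) < p))
    with hBl
  have hpos : ∀ p : ℕ, 0 ≤ w p * (1 / (p : ℝ)) := fun p => mul_nonneg (hw0 p) (by positivity)
  have hcover : (Icc 1 x).filter (fun p => p ∈ P) ⊆ (Icc 2 L).biUnion Bl := by
    intro p hp
    rw [mem_filter, mem_Icc] at hp
    rw [mem_biUnion]
    have hex : ∃ l, 2 ≤ l ∧ p ≤ zz l := ⟨L, by omega, by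
      have : x ≤ zz L := hxL
      omega⟩
    refine ⟨Nat.find hex, ?_, ?_⟩
    · rw [mem_Icc]
      refine ⟨(Nat.find_spec hex).1, ?_⟩
      apply Nat.find_min' hex
      refine ⟨by omega, ?_⟩
      have : x ≤ zz L := hxL
      omega
    · rw [hBl, mem_filter, mem_Icc]
      refine ⟨⟨hp.1.1, (Nat.find_spec hex).2⟩, hp.2, ?_⟩
      by_cases h2 : Nat.find hex = 2
      · exact Or.inl h2
      · right
        have h3 := (Nat.find_spec hex).1
        have h4 := Nat.find_min hex (m := Nat.find hex - 1) (by omega)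
        by_contra hcon
        exact h4 ⟨by omega, not_lt.mp hcon⟩
  have hblock : ∀ l ∈ Icc 2 L, ∑ p ∈ Bl l, w p * (1 / (p : ℝ)) ≤
      D * (2 : ℝ) ^ ((1 - ε) * l) := by
    intro l hl
    rw [mem_Icc] at hl
    have hl2 : (1 : ℝ) ≤ (2 : ℝ) ^ ((1 - ε) * l) :=
      Real.one_le_rpow (by norm_num) (mul_nonneg (by linarith) (by positivity))
    have hsub : Bl l ⊆ (Icc 1 (zz l)).filter Nat.Prime := by
      intro p hp
      rw [hBl, mem_filter] at hp
      rw [mem_filter]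
      exact ⟨hp.1, hP p hp.2.1⟩
    have hrec : ∑ p ∈ Bl l, 1 / (p : ℝ) ≤ M * 2 ^ l := by
      refine le_trans (sum_le_sum_of_subset_of_nonneg hsub fun p _ _ => by positivity) ?_
      exact hM l hl.1
    have hle : ∀ p ∈ Bl l, w p * (1 / (p : ℝ)) ≤ 1 / (p : ℝ) := by
      intro p hp
      rw [hBl, mem_filter, mem_Icc] at hp
      have h1 := hw1 p hp.2.1
      have h2 : (0 : ℝ) ≤ 1 / (p : ℝ) := by positivity
      nlinarith
    by_cases hlW : l < W
    · -- small blocks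
      calc ∑ p ∈ Bl l, w p * (1 / (p : ℝ)) ≤ ∑ p ∈ Bl l, 1 / (p : ℝ) := sum_le_sum hle
        _ ≤ M * 2 ^ l := hrec
        _ ≤ M * 2 ^ W := mul_le_mul_of_nonneg_left
            (pow_le_pow_right₀ (by norm_num) hlW.le) hM0.le
        _ ≤ D := by
            have : 0 ≤ D₀ * M := by positivity
            linarith
        _ ≤ D * (2 : ℝ) ^ ((1 - ε) * l) := le_mul_of_one_le_right hD0.le hl2
    · rw [not_lt] at hlW
      have hl0 : L0 ≤ l := le_trans (le_max_left _ _) hlW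
      have hl6 : 6 ≤ l := le_trans (le_max_right _ _) hlW
      rw [← sum_filter_add_sum_filter_not (Bl l) (fun p => good l p)]
      have hA : ∑ p ∈ (Bl l).filter (fun p => good l p), w p * (1 / (p : ℝ)) ≤ 1 := by
        have hcard := hfew l hl0 ((Bl l).filter (fun p => good l p)) (by
          intro p hp
          rw [mem_filter, hBl, mem_filter, mem_Icc] at hp
          refine ⟨hp.1.2.1, ?_, hp.1.1.2, hp.2⟩
          rcases hp.1.2.2 with h | h
          · omega
          · exact lt_of_le_of_lt (zz_lower l (by omega)) h)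
        have hterm : ∀ p ∈ (Bl l).filter (fun p => good l p),
            w p * (1 / (p : ℝ)) ≤ 1 / (zz (l - 1) : ℝ) := by
          intro p hp
          rw [mem_filter] at hp
          refine (hle p hp.1).trans ?_
          have hp1 := hp.1
          rw [hBl, mem_filter] at hp1
          have hz : 0 < zz (l - 1) := by unfold zz; positivity
          rcases hp1.2.2 with h | h
          · omega
          · exact one_div_le_one_div_of_le (by exact_mod_cast hz) (by exact_mod_cast h.le)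
        refine (sum_le_card_nsmul _ _ _ hterm).trans ?_
        rw [nsmul_eq_mul, mul_one_div, div_le_one (by unfold zz; positivity)]
        have h1 : 2 ^ l * (2 * 2 ^ (2 ^ (l - 2))) ≤ zz (l - 1) := by
          have h2 : 2 ^ l * (2 * 2 ^ (2 ^ (l - 2))) = 2 ^ (l + 1 + 2 ^ (l - 2)) := by
            rw [pow_add, pow_succ]
            ring
          rw [h2]
          unfold zz
          apply Nat.pow_le_pow_right (by norm_num)
          have h3 : l - 1 - 2 = l - 3 := by omega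
          rw [h3]
          exact tiny l hl6
        exact_mod_cast hcard.trans h1
      have hB : ∑ p ∈ (Bl l).filter (fun p => ¬ good l p), w p * (1 / (p : ℝ)) ≤
          D₀ * M * (2 : ℝ) ^ ((1 - ε) * l) := by
        have hterm : ∀ p ∈ (Bl l).filter (fun p => ¬ good l p),
            w p * (1 / (p : ℝ)) ≤ (D₀ * (2 : ℝ) ^ (-(ε * l))) * (1 / (p : ℝ)) := by
          intro p hp
          rw [mem_filter] at hp
          have hp1 := hp.1
          rw [hBl, mem_filter, mem_Icc] at hp1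
          exact mul_le_mul_of_nonneg_right (hbad l p hp1.2.1 hp.2) (by positivity)
        refine (sum_le_sum hterm).trans ?_
        rw [← mul_sum]
        have h7 : ∑ p ∈ (Bl l).filter (fun p => ¬ good l p), 1 / (p : ℝ) ≤ M * 2 ^ l :=
          le_trans (sum_le_sum_of_subset_of_nonneg (filter_subset _ _) fun p _ _ => by positivity) hrec
        refine (mul_le_mul_of_nonneg_left h7 (by positivity)).trans (le_of_eq ?_)
        have h8 : (2 : ℝ) ^ ((1 - ε) * l) = (2 : ℝ) ^ (-(ε * l)) * 2 ^ l := by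
          rw [← Real.rpow_natCast 2 l, ← Real.rpow_add (by norm_num)]
          congr 1
          ring
        rw [h8]
        ring
      have hMW : 0 ≤ M * (2 : ℝ) ^ W := by positivity
      calc _ ≤ 1 + D₀ * M * (2 : ℝ) ^ ((1 - ε) * l) := add_le_add hA hB
        _ ≤ D * (2 : ℝ) ^ ((1 - ε) * l) := by
            rw [hD]
            nlinarith
  calc ∑ p ∈ (Icc 1 x).filter (fun p => p ∈ P), w p * (1 / (p : ℝ))
      ≤ ∑ p ∈ (Icc 2 L).biUnion Bl, w p * (1 / (p : ℝ)) :=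
        sum_le_sum_of_subset_of_nonneg hcover fun p _ _ => hpos p
    _ ≤ ∑ l ∈ Icc 2 L, ∑ p ∈ Bl l, w p * (1 / (p : ℝ)) :=
        sum_biUnion_le_rc _ _ _ hpos
    _ ≤ ∑ l ∈ Icc 2 L, D * (2 : ℝ) ^ ((1 - ε) * l) := sum_le_sum hblock
    _ ≤ ∑ l ∈ Icc 0 L, D * (2 : ℝ) ^ ((1 - ε) * l) :=
        sum_le_sum_of_subset_of_nonneg (Icc_subset_Icc_left (by norm_num)) fun l _ _ => by positivity

end Pool.Agent.Helper37.PTE
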