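import Pool.Agent.Helper51.PT.Cl
import Pool.Agent.Helper37.PTE.Smooth
import Pool.Agent.Helper37.PTE.Total

/-!
E2 of the project PT: the members `s * p`, no bound for their number.
-/

set_option autoImplicit false

namespace Pool.Agent.Helper37.PTE

open Finset
open Pool.Agent.Helper51.PS (Sm Cl Lin Oth)

/-- large cofactor: small weight -/
theorem weight_le (T f κ l : ℕ) (hT : 1 ≤ T) (hκ : 1 ≤ κ) (hf : 0 < f)
    (h : ¬ (T * f) ^ κ ≤ 2 ^ l) :
    (Real.sqrt (f : ℝ))⁻¹ ≤ T * (2 : ℝ) ^ (-((1 / (2 * κ : ℝ)) * l)) := by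
  have hκ0 : (0 : ℝ) < κ := by exact_mod_cast hκ
  have hT1 : (1 : ℝ) ≤ T := by exact_mod_cast hT
  have hf0 : (0 : ℝ) < f := by exact_mod_cast hf
  set u : ℝ := (2 : ℝ) ^ ((1 / (2 * κ : ℝ)) * l) with hu
  have hu0 : 0 < u := by positivity
  have h1 : (u ^ 2) ^ κ = (2 : ℝ) ^ l := by
    rw [← pow_mul, hu, ← Real.rpow_natCast, ← Real.rpow_mul (by norm_num), ← Real.rpow_natCast]
    congr 1
    push_cast
    field_simp
  have h2 : (2 : ℝ) ^ l < (T * f : ℝ) ^ κ := by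
    rw [not_le] at h
    exact_mod_cast h
  have h3 : u ^ 2 < T * f := by
    rw [← h1] at h2
    exact lt_of_pow_lt_pow_left₀ κ (by positivity) h2
  have h4 : u ≤ T * Real.sqrt f := by
    apply le_of_pow_le_pow_left₀ (n := 2) (by norm_num) (by positivity)
    rw [mul_pow, Real.sq_sqrt hf0.le]
    nlinarith [mul_le_mul_of_nonneg_right hT1 (by positivity : (0 : ℝ) ≤ T * f)]
  have hs0 : 0 < Real.sqrt (f : ℝ) := Real.sqrt_pos.2 hf0
  rw [Real.rpow_neg (by norm_num), ← hu, inv_eq_one_div, div_le_iff₀ hs0]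
  have h5 : (T : ℝ) * u⁻¹ * Real.sqrt f = (T * Real.sqrt f) * u⁻¹ := by ring
  rw [h5, ← div_eq_mul_inv, le_div_iff₀ hu0]
  linarith

open Classical in
/-- PT-E2. -/
theorem lin_bound (A : Set ℕ) (K : ℕ) (hK : 2 ≤ K) (h0 : ∀ n ∈ A, 0 < n) (κ : ℕ) (hκ : 1 ≤ κ)
    (L₀ : ℕ)
    (hfew : ∀ l ≥ L₀, ∀ s : ℕ, 0 < s → Sm K s → (4 * K.factorial * s) ^ κ ≤ 2 ^ l →
      ∀ P : Finset ℕ, (∀ p ∈ P, p ∈ Cl A K s ∧ 2 ^ (2 ^ (l - 2)) < p ∧
        p ≤ 2 ^ (2 ^ (2 ^ (l - 2)))) → P.card < 2 * 2 ^ (2 ^ (l - 2))) :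
    ∃ C ε : ℝ, 0 < C ∧ 0 < ε ∧ ε < 1 ∧ ∀ x : ℕ, 16 ≤ x →
      ∑ n ∈ (Icc 1 x).filter (fun n => n ∈ Lin A K), 1 / (n : ℝ) ≤
        C * (Real.log (Real.log x)) ^ (1 - ε) := by
  -- the least cofactor
  obtain ⟨f, hf⟩ : ∃ f : ℕ → ℕ, ∀ p, (∃ s, 0 < s ∧ Sm K s ∧ s * p ∈ A) →
      (0 < f p ∧ Sm K (f p) ∧ f p * p ∈ A) ∧ ∀ s, 0 < s → Sm K s → s * p ∈ A → f p ≤ s := by
    refine ⟨fun p => if h : ∃ s, 0 < s ∧ Sm K s ∧ s * p ∈ A then Nat.find h else 1, ?_⟩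
    intro p h
    simp only [dif_pos h]
    exact ⟨Nat.find_spec h, fun s h1 h2 h3 => Nat.find_min' h ⟨h1, h2, h3⟩⟩
  obtain ⟨P, hPdef⟩ : ∃ P : Set ℕ, ∀ p, p ∈ P ↔ p.Prime ∧ K < p ∧ ∃ s, 0 < s ∧ Sm K s ∧ s * p ∈ A :=
    ⟨{p | p.Prime ∧ K < p ∧ ∃ s, 0 < s ∧ Sm K s ∧ s * p ∈ A}, fun p => Iff.rfl⟩
  have hT : 1 ≤ 4 * K.factorial := by
    have := K.factorial_pos
    omega
  have hκ1 : (1 : ℝ) ≤ κ := by exact_mod_cast hκ
  have hε : (0 : ℝ) < 1 / (2 * κ : ℝ) := by positivity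
  have hε2 : 1 / (2 * κ : ℝ) ≤ 1 / 2 := by
    apply one_div_le_one_div_of_le (by norm_num)
    linarith
  obtain ⟨C, hC, hmain⟩ := block_total P (fun p => (Real.sqrt (f p : ℝ))⁻¹)
    (fun l p => (4 * K.factorial * f p) ^ κ ≤ 2 ^ l) ((4 * K.factorial : ℕ) : ℝ)
    (1 / (2 * κ : ℝ)) L₀ (by positivity) hε hε2
    (fun p hp => ((hPdef p).1 hp).1) (fun p => by positivity) (fun p hp => by
      have h1 := (hf p ((hPdef p).1 hp).2.2).1.1
      have h2 : (1 : ℝ) ≤ f p := by exact_mod_cast h1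
      apply inv_le_one_of_one_le₀
      rw [Real.one_le_sqrt]
      exact h2)
    (fun l p hp hb => weight_le (4 * K.factorial) (f p) κ l hT hκ
      (hf p ((hPdef p).1 hp).2.2).1.1 hb) (by
    intro l hl Q hQ
    have h1 : Q.card ≤ (2 * 2 ^ (2 ^ (l - 2))) * (Q.image f).card := by
      apply card_le_mul_card_image
      intro s hs
      rw [mem_image] at hs
      obtain ⟨p₀, hp₀, hps⟩ := hs
      have hp₀Q := hQ p₀ hp₀
      have hfp := (hf p₀ ((hPdef p₀).1 hp₀Q.1).2.2).1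
      rw [hps] at hfp
      refine (hfew l hl s hfp.1 hfp.2.1 (by rw [← hps]; exact hp₀Q.2.2.2) _ ?_).le
      intro p hp
      rw [mem_filter] at hp
      have hpQ := hQ p hp.1
      obtain ⟨hpp, hKp, hex⟩ := (hPdef p).1 hpQ.1
      obtain ⟨⟨g1, g2, g3⟩, g4⟩ := hf p hex
      rw [hp.2] at g1 g2 g3 g4
      refine ⟨⟨hpp, hKp, g3, ?_⟩, hpQ.2.1, hpQ.2.2.1⟩
      intro s' hs' hne hA
      have hs'0 : 0 < s' := Nat.pos_of_dvd_of_pos hs' g1
      have hs'le : s' ≤ s := Nat.le_of_dvd g1 hs'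
      have := g4 s' hs'0 (fun r hr hrs => g2 r hr (hrs.trans hs')) hA
      omega
    have h2 : (Q.image f).card ≤ 2 ^ l := by
      have hsub : Q.image f ⊆ Icc 1 (2 ^ l) := by
        intro s hs
        rw [mem_image] at hs
        obtain ⟨p, hp, rfl⟩ := hs
        have hpQ := hQ p hp
        have hfp := (hf p ((hPdef p).1 hpQ.1).2.2).1.1
        rw [mem_Icc]
        refine ⟨hfp, le_trans ?_ hpQ.2.2.2⟩
        have h3 : f p ≤ 4 * K.factorial * f p := Nat.le_mul_of_pos_left _ (by omega)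
        exact h3.trans (Nat.le_self_pow (by omega) _)
      calc (Q.image f).card ≤ (Icc 1 (2 ^ l)).card := card_le_card hsub
        _ = 2 ^ l := by simp
    calc Q.card ≤ (2 * 2 ^ (2 ^ (l - 2))) * (Q.image f).card := h1
      _ ≤ (2 * 2 ^ (2 ^ (l - 2))) * 2 ^ l := Nat.mul_le_mul_left _ h2
      _ = 2 ^ l * (2 * 2 ^ (2 ^ (l - 2))) := by ring)
  obtain ⟨C₂, hC₂0, hC₂⟩ := sqrt_bound K
  refine ⟨C₂ * C, 1 / (2 * κ : ℝ), by positivity, hε, by linarith, ?_⟩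
  intro x hx
  -- the prime of a member
  have hch : ∀ n ∈ Lin A K, ∃ p, p.Prime ∧ K < p ∧ ∃ s, n = s * p ∧ 0 < s ∧ Sm K s := by
    rintro n ⟨-, s, p, h1, h2, h3, h4, h5⟩
    exact ⟨p, h4, h5, s, h1, h2, h3⟩
  choose! g hg1 hg2 hg3 using hch
  set S := (Icc 1 x).filter (fun n => n ∈ Lin A K) with hS
  have hmem : ∀ n ∈ S, g n ∈ (Icc 1 x).filter (fun p => p ∈ P) := by
    intro n hn
    rw [hS, mem_filter, mem_Icc] at hn
    obtain ⟨s, h1, h2, h3⟩ := hg3 n hn.2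
    have hgp := hg1 n hn.2
    rw [mem_filter, mem_Icc]
    refine ⟨⟨hgp.pos, ?_⟩, (hPdef _).2 ⟨hgp, hg2 n hn.2, s, h2, h3, ?_⟩⟩
    · have h4 : g n ≤ s * g n := Nat.le_mul_of_pos_left _ h2
      omega
    · rw [← h1]
      exact hn.2.1
  calc ∑ n ∈ S, 1 / (n : ℝ)
      = ∑ p ∈ (Icc 1 x).filter (fun p => p ∈ P), ∑ n ∈ S.filter (fun n => g n = p),
          1 / (n : ℝ) := (sum_fiberwise_of_maps_to hmem _).symm
    _ ≤ ∑ p ∈ (Icc 1 x).filter (fun p => p ∈ P), C₂ * ((Real.sqrt (f p : ℝ))⁻¹ * (1 / (p : ℝ))) := by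
        apply sum_le_sum
        intro p hp
        rw [mem_filter] at hp
        obtain ⟨hpp, hKp, hex⟩ := (hPdef p).1 hp.2
        have hp0 : (0 : ℝ) < p := by exact_mod_cast hpp.pos
        have hinfo : ∀ n ∈ S.filter (fun n => g n = p), ∃ s, n = s * p ∧ 0 < s ∧ Sm K s ∧ s * p ∈ A := by
          intro n hn
          rw [mem_filter, hS, mem_filter] at hn
          obtain ⟨s, h1, h2, h3⟩ := hg3 n hn.1.2
          rw [hn.2] at h1
          exact ⟨s, h1, h2, h3, by rw [← h1]; exact hn.1.2.1⟩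
        have hterm : ∀ n ∈ S.filter (fun n => g n = p), 1 / (n : ℝ) ≤
            ((Real.sqrt (f p : ℝ))⁻¹ * (1 / (p : ℝ))) * (Real.sqrt ((n / p : ℕ) : ℝ))⁻¹ := by
          intro n hn
          obtain ⟨s, h1, h2, h3, h4⟩ := hinfo n hn
          have h5 : n / p = s := by rw [h1, Nat.mul_div_cancel _ hpp.pos]
          have h6 := (hf p hex).2 s h2 h3 h4
          have h7 := (hf p hex).1.1
          have hs0 : (0 : ℝ) < s := by exact_mod_cast h2
          have hf0 : (0 : ℝ) < f p := by exact_mod_cast h7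
          rw [h5, h1]
          push_cast
          have h8 : 1 / ((s : ℝ) * p) = ((Real.sqrt (s : ℝ))⁻¹ * (1 / (p : ℝ))) * (Real.sqrt (s : ℝ))⁻¹ := by
            have h9 : (Real.sqrt (s : ℝ))⁻¹ * (Real.sqrt (s : ℝ))⁻¹ = (s : ℝ)⁻¹ := by
              rw [← mul_inv, Real.mul_self_sqrt hs0.le]
            calc 1 / ((s : ℝ) * p) = (s : ℝ)⁻¹ * (1 / (p : ℝ)) := by field_simp
              _ = _ := by rw [← h9]; ring
          rw [h8]
          apply mul_le_mul_of_nonneg_right _ (by positivity)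
          apply mul_le_mul_of_nonneg_right _ (by positivity)
          apply inv_anti₀ (Real.sqrt_pos.2 hf0)
          exact Real.sqrt_le_sqrt (by exact_mod_cast h6)
        refine (sum_le_sum hterm).trans ?_
        rw [← mul_sum]
        have hinj : ∀ a ∈ S.filter (fun n => g n = p), ∀ b ∈ S.filter (fun n => g n = p),
            a / p = b / p → a = b := by
          intro a ha b hb hab
          obtain ⟨s, h1, -, -, -⟩ := hinfo a ha
          obtain ⟨t, h2, -, -, -⟩ := hinfo b hb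
          rw [h1, h2, Nat.mul_div_cancel _ hpp.pos, Nat.mul_div_cancel _ hpp.pos] at hab
          rw [h1, h2, hab]
        have hsum : ∑ n ∈ S.filter (fun n => g n = p), (Real.sqrt ((n / p : ℕ) : ℝ))⁻¹ ≤ C₂ := by
          have h1 := hC₂ ((S.filter (fun n => g n = p)).image (fun n => n / p)) (by
            intro s hs
            rw [mem_image] at hs
            obtain ⟨n, hn, rfl⟩ := hs
            obtain ⟨s, h1, h2, h3, -⟩ := hinfo n hn
            rw [h1, Nat.mul_div_cancel _ hpp.pos]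
            exact ⟨h2, h3⟩)
          rwa [sum_image (fun a ha b hb h => hinj a ha b hb h)] at h1
        calc ((Real.sqrt (f p : ℝ))⁻¹ * (1 / (p : ℝ))) *
              ∑ n ∈ S.filter (fun n => g n = p), (Real.sqrt ((n / p : ℕ) : ℝ))⁻¹
            ≤ ((Real.sqrt (f p : ℝ))⁻¹ * (1 / (p : ℝ))) * C₂ :=
              mul_le_mul_of_nonneg_left hsum (by positivity)
          _ = _ := by ring
    _ = C₂ * ∑ p ∈ (Icc 1 x).filter (fun p => p ∈ P), (Real.sqrt (f p : ℝ))⁻¹ * (1 / (p : ℝ)) := by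
        rw [mul_sum]
    _ ≤ C₂ * (C * (Real.log (Real.log x)) ^ (1 - 1 / (2 * κ : ℝ))) :=
        mul_le_mul_of_nonneg_left (hmain x hx) hC₂0.le
    _ = C₂ * C * (Real.log (Real.log x)) ^ (1 - 1 / (2 * κ : ℝ)) := by ring

end Pool.Agent.Helper37.PTE
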